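import Pool.Agent.P.MP_5d9799_lc.Ten

namespace Pool.Agent.Results.MP_5d9799_lc.NotAttained

open Polynomial Pool.Agent.P.MP_5d9799_lc

set_option linter.constructorNameAsVariable false
set_option maxRecDepth 20000

lemma mem_D (m h i j : ℕ) (hj : j ∈ D m h i) :
    ∃ a, a < 2 ^ m - 1 ∧ u m h a = i ∧ j ∈ coset m a := by
  simp only [D, leaders, Finset.mem_biUnion, Finset.mem_filter, Finset.mem_range] at hj
  obtain ⟨a, ⟨⟨ha, -⟩, hu⟩, hj⟩ := hj
  exact ⟨a, ha, hu, hj⟩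

lemma D_lt' (m h i j : ℕ) (hj : j ∈ D m h i) : j < 2 ^ m - 1 := by
  obtain ⟨a, ha, -, hj⟩ := mem_D m h i j hj
  simp only [coset, Finset.mem_image] at hj
  obtain ⟨k, -, rfl⟩ := hj
  exact Nat.mod_lt _ (by omega)

lemma D_lt (h i j : ℕ) (hj : j ∈ D 10 h i) : j < 1023 := by
  have := D_lt' 10 h i j hj
  omega

lemma third : ∀ l < 1023, (341 ∈ coset 10 l ∨ 682 ∈ coset 10 l) →
    u' 10 1 l ≠ 0 ∧ u' 10 2 l ≠ 0 := by decide +kernel

lemma not_third (m h j : ℕ) (hm : m = 10) (hh : h = 1 ∨ h = 2) (hj : j ∈ D m h 0) :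
    j ≠ 341 ∧ j ≠ 682 := by
  obtain ⟨a, ha, hu, hj⟩ := mem_D m h 0 j hj
  rw [u_eq m h a (by omega)] at hu
  subst hm
  have ha' : a < 1023 := by omega
  have key : (j = 341 ∨ j = 682) → False := by
    intro hj'
    have := third a ha' (by
      rcases hj' with h1 | h1
      · exact Or.inl (h1 ▸ hj)
      · exact Or.inr (h1 ▸ hj))
    rcases hh with h1 | h1
    · exact this.1 (h1 ▸ hu)
    · exact this.2 (h1 ▸ hu)
  exact ⟨fun h1 => key (Or.inl h1), fun h1 => key (Or.inr h1)⟩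

noncomputable def c1 (N : ℕ) : (ZMod 2)[X] := (X + 1) * ∑ k ∈ Finset.range N, (X ^ 3) ^ k

lemma c1_ne (N : ℕ) (hN : (N : ZMod 2) ≠ 0) : c1 N ≠ 0 := by
  refine mul_ne_zero (X_add_C_ne_zero 1) fun h => ?_
  have := congrArg (eval 1) h
  simp only [eval_finsetSum, eval_pow, eval_X, one_pow, Finset.sum_const, Finset.card_range,
    eval_zero, nsmul_eq_mul, mul_one] at this
  exact hN this

lemma dvd_gen0 (m h : ℕ) (α : GaloisField 2 m) (hα : IsPrimitiveRoot α (2 ^ m - 1))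
    (p : (GaloisField 2 m)[X]) (hp : ∀ j ∈ D m h 0, eval (α ^ j) p = 0) : gen0 m h α ∣ p := by
  refine Finset.prod_dvd_of_coprime ?_ fun j hj => dvd_iff_isRoot.mpr (hp j hj)
  intro i hi j hj hij
  refine isCoprime_X_sub_C_of_isUnit_sub (IsUnit.mk0 _ (sub_ne_zero.mpr fun he => hij ?_))
  exact hα.pow_inj (D_lt' m h 0 i hi) (D_lt' m h 0 j hj) he

lemma root_of_dvd (m h : ℕ) (α : GaloisField 2 m) (p : (GaloisField 2 m)[X])
    (hp : gen0 m h α ∣ p) (j : ℕ) (hj : j ∈ D m h 0) : eval (α ^ j) p = 0 := by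
  unfold gen0 at hp
  have h1 : X - C (α ^ j) ∣ p :=
    (Finset.dvd_prod_of_mem (fun j : ℕ => X - C (α ^ j)) hj).trans hp
  exact dvd_iff_isRoot.mp h1

lemma c1_deg (N : ℕ) (hN : 0 < N) : (c1 N).natDegree < 3 * N := by
  have h1 : (X + 1 : (ZMod 2)[X]).natDegree ≤ 1 := by compute_degree
  have h2 : (∑ k ∈ Finset.range N, (X ^ 3 : (ZMod 2)[X]) ^ k).natDegree ≤ 3 * N - 3 := by
    refine natDegree_sum_le_of_forall_le _ _ fun k hk => ?_
    rw [← pow_mul, natDegree_X_pow]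
    have := Finset.mem_range.mp hk
    omega
  have := natDegree_mul_le (p := (X + 1 : (ZMod 2)[X]))
    (q := ∑ k ∈ Finset.range N, (X ^ 3 : (ZMod 2)[X]) ^ k)
  unfold c1
  omega

lemma c1_eval {F : Type} [Field F] [CharP F 2] [Algebra (ZMod 2) F] (N : ℕ) (x : F)
    (hx : x = 1 ∨ (x ^ 3 ≠ 1 ∧ (x ^ 3) ^ N = 1)) :
    eval x ((c1 N).map (algebraMap (ZMod 2) F)) = 0 := by
  simp only [c1, Polynomial.map_mul, Polynomial.map_add, map_X, Polynomial.map_one,
    Polynomial.map_sum, Polynomial.map_pow, eval_mul, eval_add, eval_X, eval_one,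
    eval_finsetSum, eval_pow]
  rcases hx with rfl | ⟨hne, h1⟩
  · rw [CharTwo.add_self_eq_zero, zero_mul]
  · rw [geom_sum_eq hne, h1, sub_self, zero_div, mul_zero]

lemma c1_dvd (h : ℕ) (hh : h = 1 ∨ h = 2) (α : GaloisField 2 10)
    (hα : IsPrimitiveRoot α (2 ^ 10 - 1)) :
    gen0 10 h α ∣ (c1 341).map (algebraMap (ZMod 2) (GaloisField 2 10)) := by
  refine dvd_gen0 10 h α hα _ fun j hj => c1_eval _ _ ?_
  by_cases hj0 : j = 0
  · exact Or.inl (by rw [hj0, pow_zero])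
  · refine Or.inr ⟨?_, ?_⟩
    · rw [← pow_mul, Ne, hα.pow_eq_one_iff_dvd]
      have h1 := D_lt h 0 j hj
      have h2 := not_third 10 h j rfl hh hj
      omega
    · rw [← pow_mul, ← pow_mul, mul_comm, pow_mul]
      have : α ^ (3 * 341) = 1 := hα.pow_eq_one
      rw [this, one_pow]

lemma bound (h L mask : ℕ) (ct : Cert) (hh : h = 1 ∨ h = 2)
    (hm : ∀ t < 1023, mask.testBit t = true → crit 10 h 0 t = true) (h0 : mask.testBit 0 = true)
    (hc : check 10 (2 * L) (fun t => mask.testBit (t % 1023)) ct [] [] = true)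
    (α : GaloisField 2 10) (hα : IsPrimitiveRoot α (2 ^ 10 - 1)) :
    2 * L + 2 ≤ minDist 10 (gen0 10 h α) := by
  refine le_csInf ⟨_, c1 341, c1_ne 341 (by decide), c1_deg 341 (by norm_num),
    c1_dvd h hh α hα, rfl⟩ ?_
  rintro w ⟨c, hc0, hdeg, hdvd, rfl⟩
  have hz : ∀ t, mask.testBit (t % 1023) = true → PS c.support α t = 0 := by
    intro t ht
    have h1 := crit_mem 10 h 0 _ (by omega) (hm _ (Nat.mod_lt _ (by norm_num)) ht)
    have h2 := root_of_dvd 10 h α _ hdvd _ h1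
    rw [eval_map_eq] at h2
    have h3 : α ^ 1023 = 1 := hα.pow_eq_one
    rw [← h2, PS_mod _ _ _ _ h3]
  have h1 := check_sound c.support α 10 (2 * L) hα (by norm_num)
    (fun a ha => lt_of_le_of_lt (le_natDegree_of_mem_supp a ha) hdeg)
    (nonempty_support_iff.mpr hc0) _ hz ct [] [] hc (by simp) (by simp)
  have h2 := hz 0 h0
  simp only [PS, mul_zero, pow_zero, Finset.sum_const, nsmul_eq_mul, mul_one] at h2
  have h3 : 2 ∣ c.support.card := (CharP.cast_eq_zero_iff (GaloisField 2 10) 2 _).mp h2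
  omega

/-- For `m = 10` (`l = 1`, `e = 5`) the code `C_{D,0}` has minimum distance at least
`36 > 2^5 + 2` for `h = 1` and at least `34 > 2^5` for `h = 2`, so both assertions of
part (b) fail. -/
theorem result :
    (∀ α : GaloisField 2 10, IsPrimitiveRoot α (2 ^ 10 - 1) →
      36 ≤ minDist 10 (gen0 10 1 α) ∧ 34 ≤ minDist 10 (gen0 10 2 α)) ∧
    ¬ (∀ e : ℕ, Odd e → 3 ≤ e → ∀ α : GaloisField 2 (2 * e),
      IsPrimitiveRoot α (2 ^ (2 * e) - 1) → minDist (2 * e) (gen0 (2 * e) 1 α) = 2 ^ e + 2) ∧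
    ¬ (∀ e : ℕ, Odd e → 3 ≤ e → ∀ α : GaloisField 2 (2 * e),
      IsPrimitiveRoot α (2 ^ (2 * e) - 1) → minDist (2 * e) (gen0 (2 * e) 2 α) = 2 ^ e) := by
  have main : ∀ α : GaloisField 2 10, IsPrimitiveRoot α (2 ^ 10 - 1) →
      36 ≤ minDist 10 (gen0 10 1 α) ∧ 34 ≤ minDist 10 (gen0 10 2 α) := fun α hα =>
    ⟨bound 1 17 mask1 cert1 (Or.inl rfl) mask1_crit (by decide +kernel) cert1_ok α hα,
      bound 2 16 mask2 cert2 (Or.inr rfl) mask2_crit (by decide +kernel) cert2_ok α hα⟩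
  obtain ⟨α, hα⟩ : ∃ α : GaloisField 2 10, IsPrimitiveRoot α (2 ^ 10 - 1) := by
    obtain ⟨g, hg⟩ := IsCyclic.exists_ofOrder_eq_natCard (α := (GaloisField 2 10)ˣ)
    rw [Nat.card_units, GaloisField.card 2 10 (by norm_num)] at hg
    exact ⟨g, IsPrimitiveRoot.coe_units_iff.mpr (hg ▸ IsPrimitiveRoot.orderOf g)⟩
  refine ⟨main, fun H => ?_, fun H => ?_⟩
  · have h1 := H 5 (by decide) (by norm_num) α hα
    have h2 := (main α hα).1
    change minDist 10 (gen0 10 1 α) = _ at h1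
    omega
  · have h1 := H 5 (by decide) (by norm_num) α hα
    have h2 := (main α hα).2
    change minDist 10 (gen0 10 2 α) = _ at h1
    omega

end Pool.Agent.Results.MP_5d9799_lc.NotAttained
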